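import Mathlib

set_option autoImplicit false

open MeasureTheory Set Filter Topology
open scoped ContDiff

namespace Pool.Agent.H.MP_5aaff8_an

lemma intm {X : Type} [TopologicalSpace X] [MeasurableSpace X] [OpensMeasurableSpace X]
    [T2Space X] [SecondCountableTopology X] {μ : Measure X} {f A : X → ℝ} {S : Set X}
    (hS : IsCompact S) (hf : Integrable f μ) (h0 : ∀ x ∉ S, f x = 0) (hA : Continuous A) :
    Integrable (fun x => A x * f x) μ :=
  (hf.integrableOn.continuousOn_mul hA.continuousOn hS).integrable_of_forall_notMem_eq_zero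
    fun x hx => by rw [h0 x hx, mul_zero]

abbrev J : Set ℝ := Icc (-1 / 2) (1 / 2)

lemma toI (f : ℝ → ℝ) (h0 : ∀ s ∉ J, f s = 0) : ∫ s in (-1 : ℝ)..1, f s = ∫ s, f s := by
  refine intervalIntegral.integral_eq_integral_of_support_subset fun s hs => ?_
  by_contra h
  refine hs (h0 s fun hJ => h ⟨?_, ?_⟩) <;> linarith [hJ.1, hJ.2]

lemma mom (g : ℝ → ℝ) (hg : IntervalIntegrable g volume (-1) 1)
    (h : ∀ n : ℕ, ∫ s in (-1 : ℝ)..1, s ^ n * g s = 0) :
    ∀ᵐ s, s ∈ Ioo (-1 : ℝ) 1 → g s = 0 := by
  have hi : ∀ c : ℝ → ℝ, Continuous c → IntervalIntegrable (fun s => c s * g s) volume (-1) 1 :=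
    fun c hc => hg.continuousOn_mul hc.continuousOn
  have hp : ∀ P : Polynomial ℝ, ∫ s in (-1 : ℝ)..1, P.eval s * g s = 0 := by
    intro P
    induction P using Polynomial.induction_on' with
    | add p q hp hq =>
      simp only [Polynomial.eval_add, add_mul]
      rw [intervalIntegral.integral_add (hi _ p.continuous) (hi _ q.continuous), hp, hq, add_zero]
    | monomial n a =>
      simp only [Polynomial.eval_monomial, mul_assoc]
      rw [intervalIntegral.integral_const_mul, h, mul_zero]
  have hc : ∀ c : ℝ → ℝ, Continuous c → ∫ s in (-1 : ℝ)..1, c s * g s = 0 := by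
    intro c hc
    have hm : 0 ≤ ∫ s in (-1 : ℝ)..1, |g s| :=
      intervalIntegral.integral_nonneg (by norm_num) fun _ _ => abs_nonneg _
    rw [← abs_nonpos_iff]
    refine le_of_forall_pos_le_add fun ε hε => ?_
    obtain ⟨P, hP⟩ := exists_polynomial_near_of_continuousOn (-1) 1 c hc.continuousOn
      (ε / ((∫ s in (-1 : ℝ)..1, |g s|) + 1)) (by positivity)
    have e : ∫ s in (-1 : ℝ)..1, c s * g s = ∫ s in (-1 : ℝ)..1, (c s - P.eval s) * g s := by
      simp only [sub_mul]
      rw [intervalIntegral.integral_sub (hi _ hc) (hi _ P.continuous), hp, sub_zero]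
    rw [e]
    refine (intervalIntegral.abs_integral_le_integral_abs (by norm_num)).trans ?_
    refine (intervalIntegral.integral_mono_on (g := fun s =>
      ε / ((∫ s in (-1 : ℝ)..1, |g s|) + 1) * |g s|) (by norm_num)
      (hi (fun s => c s - P.eval s) (hc.sub P.continuous)).abs (hg.abs.const_mul _)
      fun s hs => ?_).trans ?_
    · rw [abs_mul, abs_sub_comm]
      exact mul_le_mul_of_nonneg_right (hP s hs).le (abs_nonneg _)
    · rw [intervalIntegral.integral_const_mul, zero_add, div_mul_eq_mul_div,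
        div_le_iff₀ (by positivity)]
      nlinarith
  refine isOpen_Ioo.ae_eq_zero_of_integral_contDiff_smul_eq_zero
    (hg.1.mono_set Ioo_subset_Ioc_self).locallyIntegrableOn fun c h1 h2 h3 => ?_
  rw [← hc c h1.continuous, intervalIntegral.integral_eq_integral_of_support_subset]
  · rfl
  · intro s hs
    exact Ioo_subset_Ioc_self (h3 (subset_tsupport _ (left_ne_zero_of_mul hs)))

lemma byparts (q : ℝ → ℝ) (hq : Integrable q) (A : ℝ → ℝ) (hA : ContDiff ℝ 1 A) (d : ℝ)
    (hd : d ∈ Icc (-1 : ℝ) 1) : ∫ t in d..1, A t * q t = A 1 * (∫ t in (-1 : ℝ)..1, q t) -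
      A d * (∫ t in (-1 : ℝ)..d, q t) - ∫ s in d..1, deriv A s * ∫ t in (-1 : ℝ)..s, q t := by
  have h1 : AbsolutelyContinuousOnInterval (fun s => ∫ t in (-1 : ℝ)..s, q t) d 1 :=
    ((hq.intervalIntegrable (a := -1) (b := 1)).absolutelyContinuousOnInterval_intervalIntegral
      left_mem_uIcc).mono (uIcc_subset_uIcc (by rwa [uIcc_of_le (by norm_num)]) right_mem_uIcc)
  rw [← hA.contDiffOn.absolutelyContinuousOnInterval.integral_mul_deriv_eq_deriv_mul h1]
  refine intervalIntegral.integral_congr_ae ?_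
  filter_upwards [LocallyIntegrable.ae_hasDerivAt_integral hq.locallyIntegrable] with s hs _
  rw [(hs _).deriv]

lemma oneD (p q : ℝ → ℝ) (hp : Integrable p) (hq : Integrable q) (hp0 : ∀ s ∉ J, p s = 0)
    (hq0 : ∀ s ∉ J, q s = 0)
    (h : ∀ n : ℕ, ∫ s, (n * s ^ (n - 1)) * p s = -∫ s, s ^ n * q s) :
    (Integrable (fun s => q s ^ 2) → ∫ s, p s ^ 2 ≤ ∫ s, q s ^ 2) ∧
    (∀ A : ℝ → ℝ, ContDiff ℝ 1 A → ∫ s, A s * q s = -∫ s, deriv A s * p s) ∧
    (∫ s, Real.sinh (max s 0) * q s = -∫ s, (Ioi 0).indicator Real.cosh s * p s) ∧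
    ∀ᵐ s, p s = 0 → q s = 0 := by
  set P : ℝ → ℝ := fun s => ∫ t in (-1 : ℝ)..s, q t with hP
  have hPc : Continuous P := hq.continuous_primitive _
  have hP1 : ∫ t in (-1 : ℝ)..1, q t = 0 := by
    have := h 0
    simp only [Nat.cast_zero, zero_mul, integral_zero, pow_zero, one_mul, zero_eq_neg] at this
    rw [toI q hq0, this]
  have bp : ∀ A : ℝ → ℝ, ContDiff ℝ 1 A →
      ∫ s, A s * q s = -∫ s in (-1 : ℝ)..1, deriv A s * P s := by
    intro A hA
    rw [← toI _ fun s hs => by rw [hq0 s hs, mul_zero], byparts q hq A hA (-1) (by norm_num), hP1]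
    simp [hP]
  have hpP : ∀ᵐ s, s ∈ Ioo (-1 : ℝ) 1 → p s - P s = 0 := by
    refine mom _ (hp.intervalIntegrable.sub (hPc.intervalIntegrable _ _)) fun n => ?_
    have h1 := h (n + 1)
    rw [bp (fun s => s ^ (n + 1)) (by fun_prop), neg_neg,
      ← toI _ fun s hs => by rw [hp0 s hs, mul_zero]] at h1
    simp only [deriv_pow_field, Nat.add_sub_cancel, mul_assoc,
      intervalIntegral.integral_const_mul] at h1
    simp only [mul_sub]
    rw [intervalIntegral.integral_sub (hp.intervalIntegrable.continuousOn_mul (by fun_prop))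
      (Continuous.intervalIntegrable (by fun_prop) _ _), sub_eq_zero]
    exact mul_left_cancel₀ (by positivity) h1
  have hne : ∀ᵐ s : ℝ, s ≠ 1 := by simp [ae_iff]
  refine ⟨fun h2 => ?_, fun A hA => ?_, ?_, ?_⟩
  · set m := ∫ s, |q s| with hm
    have hJ : ∀ c : ℝ, Integrable (J.indicator fun _ : ℝ => c) := fun c =>
      (integrable_indicator_iff measurableSet_Icc).2 (integrableOn_const (by simp))
    have hJ' : ∀ c : ℝ, ∫ s, J.indicator (fun _ : ℝ => c) s = c := fun c => by
      rw [integral_indicator measurableSet_Icc]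
      norm_num
    have h3 : ∫ s, 2 * m * |q s| ≤ ∫ s, (q s ^ 2 + J.indicator (fun _ => m ^ 2) s) := by
      refine integral_mono (hq.abs.const_mul _) (h2.add (hJ _)) fun s => ?_
      by_cases hs : s ∈ J
      · simp only [indicator_of_mem hs]
        nlinarith [sq_nonneg (|q s| - m), sq_abs (q s)]
      · simp [indicator_of_notMem hs, hq0 s hs]
    rw [integral_const_mul, integral_add h2 (hJ _), hJ', ← hm] at h3
    have h4 : ∫ s, p s ^ 2 ≤ ∫ s, J.indicator (fun _ => m ^ 2) s := by
      refine integral_mono_of_nonneg (Eventually.of_forall fun s => sq_nonneg _) (hJ _) ?_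
      filter_upwards [hpP] with s hs
      by_cases hs' : s ∈ J
      · simp only [indicator_of_mem hs']
        have e : p s = P s := sub_eq_zero.1 (hs ⟨by linarith [hs'.1], by linarith [hs'.2]⟩)
        have : |P s| ≤ m := by
          refine (intervalIntegral.abs_integral_le_integral_abs (by linarith [hs'.1])).trans ?_
          rw [intervalIntegral.integral_of_le (by linarith [hs'.1])]
          exact setIntegral_le_integral hq.abs (Eventually.of_forall fun _ => abs_nonneg _)
        rw [e, ← sq_abs]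
        exact pow_le_pow_left₀ (abs_nonneg _) this 2
      · simp [indicator_of_notMem hs', hp0 s hs']
    rw [hJ'] at h4
    nlinarith
  · rw [bp A hA, ← toI _ fun s hs => by rw [hp0 s hs, mul_zero]]
    congr 1
    refine intervalIntegral.integral_congr_ae ?_
    filter_upwards [hpP, hne] with s hs hs1 hs2
    rw [uIoc_of_le (by norm_num)] at hs2
    rw [sub_eq_zero.1 (hs ⟨hs2.1, lt_of_le_of_ne hs2.2 hs1⟩)]
  · have e1 : ∫ s, Real.sinh (max s 0) * q s = ∫ s in (0 : ℝ)..1, Real.sinh s * q s := by
      rw [← intervalIntegral.integral_eq_integral_of_support_subset (a := 0) (b := 1)]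
      · refine intervalIntegral.integral_congr fun s hs => ?_
        rw [uIcc_of_le zero_le_one] at hs
        simp only [max_eq_left hs.1]
      · intro s hs
        refine ⟨lt_of_not_ge fun h => hs (by simp [max_eq_right h]), ?_⟩
        by_contra h
        exact hs (by simp only [hq0 s fun hJ => h (by linarith [hJ.2]), mul_zero])
    have e2 : ∫ s, (Ioi 0).indicator Real.cosh s * p s =
        ∫ s in (0 : ℝ)..1, deriv Real.sinh s * P s := by
      rw [← intervalIntegral.integral_eq_integral_of_support_subset (a := 0) (b := 1)]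
      · refine intervalIntegral.integral_congr_ae ?_
        filter_upwards [hpP, hne] with s hs hs1 hs2
        rw [uIoc_of_le (by norm_num)] at hs2
        rw [sub_eq_zero.1 (hs ⟨by linarith [hs2.1], lt_of_le_of_ne hs2.2 hs1⟩),
          indicator_of_mem (show s ∈ Ioi (0 : ℝ) from hs2.1), Real.deriv_sinh]
      · intro s hs
        refine ⟨lt_of_not_ge fun h => hs (by simp [h]), ?_⟩
        by_contra h
        exact hs (by simp only [hp0 s fun hJ => h (by linarith [hJ.2]), mul_zero])
    rw [e1, e2, byparts q hq _ Real.contDiff_sinh 0 (by norm_num), hP1]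
    simp [hP]
  · have hiso := (countable_setOfPred_isolated_right_within (s := {s | P s = 0})).measure_zero
      volume
    filter_upwards [hpP, LocallyIntegrable.ae_hasDerivAt_integral hq.locallyIntegrable,
      measure_eq_zero_iff_ae_notMem.1 hiso] with s h1 h2 h3 h4
    by_cases hs' : s ∈ J
    · have e : p s = P s := sub_eq_zero.1 (h1 ⟨by linarith [hs'.1], by linarith [hs'.2]⟩)
      rw [← (h2 (-1)).deriv]
      refine deriv_zero_of_frequently_const (c := 0) ?_
      have h5 : (𝓝[{s | P s = 0} ∩ Ioi s] s).NeBot := ⟨fun h => h3 ⟨e ▸ h4, h⟩⟩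
      have h6 : ∀ᶠ y in 𝓝[{s | P s = 0} ∩ Ioi s] s, P y = 0 :=
        eventually_nhdsWithin_of_forall fun y hy => hy.1
      exact h6.frequently.filter_mono (nhdsWithin_mono _ fun y hy => ne_of_gt hy.2)
    · exact hq0 s hs'

end Pool.Agent.H.MP_5aaff8_an
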