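import Pool.Agent.H.MP_5aaff8_an.A

set_option autoImplicit false

open MeasureTheory Set Filter Topology
open scoped ContDiff

namespace Pool.Agent.H.MP_5aaff8_an

abbrev Q : Set (ℝ × ℝ) := J ×ˢ J

lemma Qc : IsCompact Q := isCompact_Icc.prod isCompact_Icc

lemma fub (f : ℝ × ℝ → ℝ) (hf : Integrable f) : ∫ z, f z = ∫ y, ∫ x, f (x, y) :=
  integral_prod_symm f hf

lemma chi_int (ψ : ℝ × ℝ → ℝ) (hψ : Integrable ψ) (h0 : ∀ z ∉ Q, ψ z = 0) (B : ℝ → ℝ)
    (hB : Continuous B) :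
    Integrable fun z : ℝ × ℝ => (Ioi 0).indicator Real.cosh z.1 * B z.2 * ψ z := by
  have := (intm Qc hψ h0 (A := fun z => Real.cosh z.1 * B z.2) (by fun_prop)).indicator
    (measurableSet_Ioi (a := (0 : ℝ)).preimage measurable_fst)
  refine this.congr (Eventually.of_forall fun z => ?_)
  by_cases h : 0 < z.1 <;> simp [indicator, h]

lemma twoD (ψ F : ℝ × ℝ → ℝ) (hψ : Integrable ψ) (hF : Integrable F)
    (hψ2 : Integrable fun z => ψ z ^ 2) (hF2 : Integrable fun z => F z ^ 2)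
    (h0ψ : ∀ z ∉ Q, ψ z = 0) (h0F : ∀ z ∉ Q, F z = 0)
    (h : ∀ A B : ℝ → ℝ, ContDiff ℝ ∞ A → ContDiff ℝ ∞ B →
      ∫ z : ℝ × ℝ, deriv A z.1 * B z.2 * ψ z = -∫ z : ℝ × ℝ, A z.1 * B z.2 * F z) :
    ∫ z, ψ z ^ 2 ≤ ∫ z, F z ^ 2 ∧
    (∀ A B : ℝ → ℝ, ContDiff ℝ 1 A → Continuous B →
      ∫ z : ℝ × ℝ, A z.1 * B z.2 * F z = -∫ z : ℝ × ℝ, deriv A z.1 * B z.2 * ψ z) ∧
    (∀ B : ℝ → ℝ, Continuous B → ∫ z : ℝ × ℝ, Real.sinh (max z.1 0) * B z.2 * F z =
      -∫ z : ℝ × ℝ, (Ioi 0).indicator Real.cosh z.1 * B z.2 * ψ z) ∧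
    ∀ S : Set (ℝ × ℝ), MeasurableSet S → (∀ z ∈ S, ψ z = 0) → ∀ᵐ z, z ∈ S → F z = 0 := by
  have a1 : ∀ᵐ y, Integrable fun s => ψ (s, y) := Integrable.prod_left_ae hψ
  have a2 : ∀ᵐ y, Integrable fun s => F (s, y) := Integrable.prod_left_ae hF
  have a3 : ∀ᵐ y, Integrable fun s => F (s, y) ^ 2 := Integrable.prod_left_ae hF2
  have z1 : ∀ y, ∀ s ∉ J, ψ (s, y) = 0 := fun y s hs => h0ψ _ fun h => hs h.1
  have z2 : ∀ y, ∀ s ∉ J, F (s, y) = 0 := fun y s hs => h0F _ fun h => hs h.1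
  have a4 : ∀ᵐ y, ∀ n : ℕ, ∫ s, (n * s ^ (n - 1) * ψ (s, y) + s ^ n * F (s, y)) = 0 := by
    rw [ae_all_iff]
    intro n
    have hi : Integrable fun z : ℝ × ℝ => n * z.1 ^ (n - 1) * ψ z + z.1 ^ n * F z :=
      (intm Qc hψ h0ψ (by fun_prop)).add (intm Qc hF h0F (by fun_prop))
    refine ae_eq_zero_of_integral_contDiff_smul_eq_zero
      (Integrable.integral_prod_right hi).locallyIntegrable fun B hB _ => ?_
    have hBc := hB.continuous
    have h1 := h (fun s => s ^ n) B (by fun_prop) hB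
    simp only [deriv_pow_field] at h1
    have i1 : Integrable fun z : ℝ × ℝ => n * z.1 ^ (n - 1) * B z.2 * ψ z :=
      intm Qc hψ h0ψ (by fun_prop)
    have i2 : Integrable fun z : ℝ × ℝ => z.1 ^ n * B z.2 * F z := intm Qc hF h0F (by fun_prop)
    have i3 : Integrable fun z : ℝ × ℝ =>
        n * z.1 ^ (n - 1) * B z.2 * ψ z + z.1 ^ n * B z.2 * F z := i1.add i2
    rw [eq_neg_iff_add_eq_zero, ← integral_add i1 i2, fub _ i3] at h1
    rw [← h1]
    congr 1
    funext y
    rw [smul_eq_mul, ← integral_const_mul]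
    congr 1
    funext s
    ring
  have key := a1.mp (a2.mp (a4.mono fun y h4 h2 h1 => oneD _ _ h1 h2 (z1 y) (z2 y) fun n => by
    rw [eq_neg_iff_add_eq_zero, ← integral_add (intm isCompact_Icc h1 (z1 y) (by fun_prop))
      (intm isCompact_Icc h2 (z2 y) (by fun_prop))]
    exact h4 n))
  refine ⟨?_, fun A B hA hB => ?_, fun B hB => ?_, fun S hS h0 => ?_⟩
  · rw [fub _ hψ2, fub _ hF2]
    refine integral_mono_ae (Integrable.integral_prod_right hψ2)
      (Integrable.integral_prod_right hF2) ?_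
    filter_upwards [key, a3] with y h1 h2
    exact h1.1 h2
  · have hA0 := hA.continuous
    have hA1 : Continuous (deriv A) := hA.continuous_deriv le_rfl
    rw [fub _ (intm Qc hF h0F (by fun_prop)), fub _ (intm Qc hψ h0ψ (by fun_prop)),
      ← integral_neg]
    refine integral_congr_ae ?_
    filter_upwards [key] with y h1
    simp only [mul_right_comm _ (B y), integral_mul_const, h1.2.1 A hA, neg_mul]
  · rw [fub _ (intm Qc hF h0F (by fun_prop)), fub _ (chi_int ψ hψ h0ψ B hB), ← integral_neg]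
    refine integral_congr_ae ?_
    filter_upwards [key] with y h1
    simp only [mul_right_comm _ (B y), integral_mul_const, h1.2.2.1, neg_mul]
  · have hi : Integrable (S.indicator fun z => |F z|) := hF.abs.indicator hS
    have h1 : ∫ z, S.indicator (fun z => |F z|) z = 0 := by
      rw [fub _ hi]
      refine integral_eq_zero_of_ae ?_
      filter_upwards [key] with y h1
      refine integral_eq_zero_of_ae ?_
      filter_upwards [h1.2.2.2] with s hs
      by_cases h : (s, y) ∈ S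
      · simp [indicator_of_mem h, hs (h0 _ h)]
      · simp [indicator_of_notMem h]
    rw [integral_eq_zero_iff_of_nonneg (indicator_nonneg fun _ _ => abs_nonneg _) hi] at h1
    filter_upwards [h1] with z hz hzS
    simpa [indicator_of_mem hzS] using hz

lemma ext (Ω W : Set (ℝ × ℝ)) (hΩ : IsOpen Ω) (hW : IsOpen W) (hK : IsCompact (closure W))
    (hKΩ : closure W ⊆ Ω) (f g : ℝ × ℝ → ℝ) (hg : IntegrableOn g Ω) (e : ℝ × ℝ)
    (h : ∀ φ : ℝ × ℝ → ℝ, ContDiff ℝ ∞ φ → HasCompactSupport φ → tsupport φ ⊆ Ω →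
      ∫ x in Ω, fderiv ℝ φ x e * f x = -∫ x in Ω, φ x * g x)
    (h0 : ∀ᵐ x ∂volume.restrict (Ω \ W), f x = 0) (φ : ℝ × ℝ → ℝ) (hφ : ContDiff ℝ ∞ φ) :
    ∫ x, fderiv ℝ φ x e * W.indicator f x = -∫ x, φ x * (closure W).indicator g x := by
  rw [ae_restrict_iff' (hΩ.measurableSet.diff hW.measurableSet)] at h0
  have hU : IsOpen (Ω \ closure W) := hΩ.sdiff isClosed_closure
  have h1 : ∀ᵐ x, x ∈ Ω \ closure W → g x = 0 := by
    refine hU.ae_eq_zero_of_integral_contDiff_smul_eq_zero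
      (hg.mono_set sdiff_subset).locallyIntegrableOn fun c c1 c2 c3 => ?_
    have := h c c1 c2 (c3.trans sdiff_subset)
    rw [setIntegral_eq_zero_of_ae_eq_zero, setIntegral_eq_integral_of_forall_compl_eq_zero,
      zero_eq_neg] at this
    · exact this
    · intro x hx
      rw [image_eq_zero_of_notMem_tsupport fun h => hx (c3 h).1, zero_mul]
    · filter_upwards [h0] with x hx hxΩ
      by_cases hxW : x ∈ W
      · have : fderiv ℝ c x = 0 := by
          by_contra hne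
          exact (c3 (support_fderiv_subset ℝ hne)).2 (subset_closure hxW)
        simp [this]
      · rw [hx ⟨hxΩ, hxW⟩, mul_zero]
  obtain ⟨L, hL, hKL, hLΩ⟩ := exists_compact_between hK hΩ hKΩ
  obtain ⟨c, c1, c2, -⟩ := exists_contMDiffMap_one_nhds_of_subset_interior (n := ⊤)
    (modelWithCornersSelf ℝ (ℝ × ℝ)) isClosed_closure hKL
  have c0 : ContDiff ℝ ∞ c := c.contMDiff.contDiff
  have c3 : tsupport (fun x => φ x * c x) ⊆ L :=
    closure_minimal (fun x hx => by_contra fun hxL => hx (by simp [c2 x hxL])) hL.isClosed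
  have h2 := h (fun x => φ x * c x) (hφ.mul c0) (hL.of_isClosed_subset isClosed_closure c3)
    (c3.trans hLΩ)
  have c4 : ∀ x ∈ closure W, (fun x => φ x * c x) =ᶠ[𝓝 x] φ := fun x hx => by
    filter_upwards [c1.filter_mono (nhds_le_nhdsSet hx)] with y hy
    rw [hy, mul_one]
  rw [← integral_indicator hΩ.measurableSet, ← integral_indicator hΩ.measurableSet] at h2
  convert h2 using 1
  · refine integral_congr_ae ?_
    filter_upwards [h0] with x hx
    by_cases hxW : x ∈ W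
    · rw [indicator_of_mem hxW, indicator_of_mem (hKΩ (subset_closure hxW)),
        (c4 x (subset_closure hxW)).fderiv_eq]
    · by_cases hxΩ : x ∈ Ω
      · simp [indicator_of_notMem hxW, indicator_of_mem hxΩ, hx ⟨hxΩ, hxW⟩]
      · simp [indicator_of_notMem hxW, indicator_of_notMem hxΩ]
  · congr 1
    refine integral_congr_ae ?_
    filter_upwards [h1] with x hx
    by_cases hxW : x ∈ closure W
    · rw [indicator_of_mem hxW, indicator_of_mem (hKΩ hxW), (c4 x hxW).eq_of_nhds]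
    · by_cases hxΩ : x ∈ Ω
      · simp [indicator_of_notMem hxW, indicator_of_mem hxΩ, hx ⟨hxΩ, hxW⟩]
      · simp [indicator_of_notMem hxW, indicator_of_notMem hxΩ]

end Pool.Agent.H.MP_5aaff8_an
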