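import Pool.Agent.H.MP_5aaff8_an.B

set_option autoImplicit false

open MeasureTheory Set Filter Topology
open scoped ContDiff

namespace Pool.Agent.H.MP_5aaff8_an

abbrev O : Set (ℝ × ℝ) := Ioo (-1 / 2) (1 / 2) ×ˢ Ioo (-1 / 2) (1 / 2)

lemma Oo : IsOpen O := isOpen_Ioo.prod isOpen_Ioo

lemma OQ : O ⊆ Q := prod_mono Ioo_subset_Icc_self Ioo_subset_Icc_self

lemma Ofin : IsFiniteMeasure (volume.restrict O) :=
  isFiniteMeasure_restrict.2 ((measure_mono OQ).trans_lt Qc.measure_lt_top).ne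

lemma cmem (u : ℝ × ℝ → ℝ) (hu : Continuous u) : MemLp u 2 (volume.restrict O) := by
  have := Ofin
  obtain ⟨C, hC⟩ := Qc.exists_bound_of_continuousOn hu.continuousOn
  refine MemLp.of_bound hu.aestronglyMeasurable C ?_
  rw [ae_restrict_iff' Oo.measurableSet]
  exact Eventually.of_forall fun x hx => hC x (OQ hx)

def Weak (f g : ℝ × ℝ → ℝ) (e : ℝ × ℝ) : Prop :=
  ∀ φ : ℝ × ℝ → ℝ, ContDiff ℝ ∞ φ → HasCompactSupport φ → tsupport φ ⊆ O →
    ∫ x in O, fderiv ℝ φ x e * f x = -∫ x in O, φ x * g x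

lemma weak_of (f g : ℝ × ℝ → ℝ) (e : ℝ × ℝ) (hf : Continuous f) (hg : Continuous g)
    (h : ∀ x, HasLineDerivAt ℝ f (g x) x e) : Weak f g e := by
  intro φ h1 h2 h3
  have c0 := h1.continuous
  have c1 : Continuous fun x => fderiv ℝ φ x e := (h1.continuous_fderiv (by simp)).clm_apply
    continuous_const
  have s1 : HasCompactSupport fun x => fderiv ℝ φ x e := h2.fderiv_apply (𝕜 := ℝ) e
  rw [setIntegral_eq_integral_of_forall_compl_eq_zero,
    setIntegral_eq_integral_of_forall_compl_eq_zero]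
  · have := integral_bilinear_hasLineDerivAt_right_eq_neg_left_of_integrable
      (μ := volume) (B := ContinuousLinearMap.mul ℝ ℝ) (f := φ) (f' := fun x => fderiv ℝ φ x e)
      (g := f) (g' := g) (v := e) ((c1.mul hf).integrable_of_hasCompactSupport s1.mul_right)
      ((c0.mul hg).integrable_of_hasCompactSupport h2.mul_right)
      ((c0.mul hf).integrable_of_hasCompactSupport h2.mul_right)
      (fun x _ => (h1.differentiable (by simp) x).hasFDerivAt.hasLineDerivAt e) fun x _ => h x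
    simp only [ContinuousLinearMap.mul_apply'] at this
    rw [this, neg_neg]
  · intro x hx
    rw [image_eq_zero_of_notMem_tsupport fun h => hx (h3 h), zero_mul]
  · intro x hx
    have : fderiv ℝ φ x = 0 := by
      by_contra hne
      exact hx (h3 (support_fderiv_subset ℝ hne))
    simp [this]

lemma Weak.sub {f g f' g' : ℝ × ℝ → ℝ} {e : ℝ × ℝ} (h : Weak f g e) (h' : Weak f' g' e)
    (i1 : IntegrableOn f O) (i2 : IntegrableOn g O) (i3 : IntegrableOn f' O)
    (i4 : IntegrableOn g' O) : Weak (fun x => f x - f' x) (fun x => g x - g' x) e := by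
  intro φ h1 h2 h3
  have c0 := h1.continuous
  have c1 : Continuous fun x => fderiv ℝ φ x e := (h1.continuous_fderiv (by simp)).clm_apply
    continuous_const
  have k : ∀ {a b : ℝ × ℝ → ℝ}, Continuous a → IntegrableOn b O →
      Integrable (fun x => a x * b x) (volume.restrict O) := fun ha hb =>
    IntegrableOn.continuousOn_mul_of_subset ha.continuousOn hb Qc Oo.measurableSet OQ
  simp only [mul_sub]
  rw [integral_sub (k c1 i1) (k c1 i3), integral_sub (k c0 i2) (k c0 i4), h φ h1 h2 h3,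
    h' φ h1 h2 h3]
  ring

lemma ind_int {S : Set (ℝ × ℝ)} (hS : MeasurableSet S) (hSO : S ⊆ O) {g : ℝ × ℝ → ℝ}
    (hg : MemLp g 2 (volume.restrict O)) : Integrable (S.indicator g) ∧
      (Integrable fun z => S.indicator g z ^ 2) ∧ ∀ z ∉ Q, S.indicator g z = 0 := by
  have := Ofin
  refine ⟨(integrable_indicator_iff hS).2
    (IntegrableOn.mono_set (hg.integrable one_le_two) hSO), ?_,
    fun z hz => indicator_of_notMem (fun h => hz (OQ (hSO h))) _⟩
  have h2 : Integrable (S.indicator fun z => g z ^ 2) := (integrable_indicator_iff hS).2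
    (IntegrableOn.mono_set hg.integrable_sq hSO)
  refine h2.congr (Eventually.of_forall fun z => ?_)
  by_cases h : z ∈ S <;> simp [h]

lemma split {W : Set (ℝ × ℝ)} (hW : IsOpen W) (hKO : closure W ⊆ O) (D E : ℝ × ℝ → ℝ)
    (hD : Continuous D) (hE : MemLp E 2 (volume.restrict O))
    (h0 : ∀ᵐ z, z ∈ Wᶜ → (closure W).indicator (fun x => E x - D x) z = 0) :
    ∫ z in W, E z ^ 2 = (∫ z in W, D z ^ 2) +
      2 * (∫ z, D z * (closure W).indicator (fun x => E x - D x) z) +
      ∫ z, (closure W).indicator (fun x => E x - D x) z ^ 2 := by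
  obtain ⟨i1, i2, i3⟩ := ind_int isClosed_closure.measurableSet hKO (g := fun x => E x - D x)
    (hE.sub (cmem D hD))
  have i4 := intm Qc i1 i3 hD
  have i5 : IntegrableOn (fun z => D z ^ 2) W :=
    IntegrableOn.mono_set (cmem D hD).integrable_sq (subset_closure.trans hKO)
  have i6 : Integrable (fun z => D z ^ 2 +
      2 * (D z * (closure W).indicator (fun x => E x - D x) z)) (volume.restrict W) :=
    i5.add (i4.integrableOn.const_mul 2)
  rw [← setIntegral_eq_integral_of_ae_compl_eq_zero (s := W) (f := fun z =>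
      D z * (closure W).indicator (fun x => E x - D x) z),
    ← setIntegral_eq_integral_of_ae_compl_eq_zero (s := W) (f := fun z =>
      (closure W).indicator (fun x => E x - D x) z ^ 2), ← integral_const_mul,
    ← integral_add i5 (i4.integrableOn.const_mul 2), ← integral_add i6 i2.integrableOn]
  · refine setIntegral_congr_fun hW.measurableSet fun z hz => ?_
    simp only [indicator_of_mem (subset_closure hz), Pi.add_apply]
    ring
  · filter_upwards [h0] with z hz hzW
    rw [hz hzW]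
    simp
  · filter_upwards [h0] with z hz hzW
    rw [hz hzW]
    simp

noncomputable def ch (y : ℝ) : ℝ := Real.cosh (max y 0)

noncomputable def sh (y : ℝ) : ℝ := Real.sinh (max y 0)

lemma ch_cont : Continuous ch := by unfold ch; fun_prop

lemma sh_cont : Continuous sh := by unfold sh; fun_prop

lemma ch_deriv (y : ℝ) : HasDerivAt ch (sh y) y := by
  have h1 : ∀ y : ℝ, 0 ≤ y → HasDerivWithinAt ch (sh y) (Ici 0) y := fun y hy => by
    rw [sh, max_eq_left hy]
    exact (Real.hasDerivAt_cosh y).hasDerivWithinAt.congr_of_mem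
      (fun z hz => by rw [ch, max_eq_left hz]) hy
  have h2 : ∀ y : ℝ, y ≤ 0 → HasDerivWithinAt ch (sh y) (Iic 0) y := fun y hy => by
    rw [sh, max_eq_right hy, Real.sinh_zero]
    exact (hasDerivAt_const y (Real.cosh 0)).hasDerivWithinAt.congr_of_mem
      (fun z hz => by rw [ch, max_eq_right hz]) hy
  rcases lt_trichotomy y 0 with h | rfl | h
  · exact (h2 y h.le).hasDerivAt (Iic_mem_nhds h)
  · simpa using (h2 0 le_rfl).union (h1 0 le_rfl)
  · exact (h1 y h.le).hasDerivAt (Ici_mem_nhds h)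

lemma weak0 (a a' : ℝ → ℝ) (h1 : ∀ x, HasDerivAt a (a' x) x) (h2 : Continuous a') :
    Weak (fun z => a z.1 * ch z.2) (fun z => a' z.1 * ch z.2) (1, 0) := by
  have c0 : Continuous a := continuous_iff_continuousAt.2 fun x => (h1 x).continuousAt
  have := ch_cont
  refine weak_of _ _ _ (by fun_prop) (by fun_prop) fun x => ?_
  have h := ((h1 (x.1 + 0)).comp_const_add x.1 0).mul_const (ch x.2)
  simpa [HasLineDerivAt] using h

lemma weak1 (a : ℝ → ℝ) (c0 : Continuous a) :
    Weak (fun z => a z.1 * ch z.2) (fun z => a z.1 * sh z.2) (0, 1) := by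
  have := ch_cont
  have := sh_cont
  refine weak_of _ _ _ (by fun_prop) (by fun_prop) fun x => ?_
  have h := ((ch_deriv (x.2 + 0)).comp_const_add x.2 0).const_mul (a x.1)
  simpa [HasLineDerivAt] using h

lemma comp (a a' : ℝ → ℝ) (h1 : ∀ x, HasDerivAt a (a' x) x) (h2 : ∀ x, HasDerivAt a' (-a x) x)
    {W : Set (ℝ × ℝ)} (hW : IsOpen W) (hK : IsCompact (closure W)) (hKO : closure W ⊆ O)
    (v E0 E1 : ℝ × ℝ → ℝ) (hv : MemLp v 2 (volume.restrict O))
    (hE0 : MemLp E0 2 (volume.restrict O)) (hE1 : MemLp E1 2 (volume.restrict O))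
    (w0 : Weak v E0 (1, 0)) (w1 : Weak v E1 (0, 1))
    (h0 : ∀ᵐ z ∂volume.restrict (O \ W), v z = a z.1 * ch z.2) :
    Integrable (fun z : ℝ × ℝ => W.indicator (fun x => v x - a x.1 * ch x.2) z ^ 2 +
      2 * ((ch z.2 - (Ioi 0).indicator Real.cosh z.2) * a z.1 *
        W.indicator (fun x => v x - a x.1 * ch x.2) z)) ∧
    (∫ z in W, (a' z.1 * ch z.2) ^ 2) + (∫ z in W, (a z.1 * sh z.2) ^ 2) +
      ∫ z : ℝ × ℝ, (W.indicator (fun x => v x - a x.1 * ch x.2) z ^ 2 +
      2 * ((ch z.2 - (Ioi 0).indicator Real.cosh z.2) * a z.1 *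
        W.indicator (fun x => v x - a x.1 * ch x.2) z)) ≤
    (∫ z in W, E0 z ^ 2) + ∫ z in W, E1 z ^ 2 := by
  have := Ofin
  have c0 : Continuous a := continuous_iff_continuousAt.2 fun x => (h1 x).continuousAt
  have c1 : Continuous a' := continuous_iff_continuousAt.2 fun x => (h2 x).continuousAt
  have c2 := ch_cont
  have c3 := sh_cont
  have mu : MemLp (fun z : ℝ × ℝ => a z.1 * ch z.2) 2 (volume.restrict O) := cmem _ (by fun_prop)
  have m0 : MemLp (fun z : ℝ × ℝ => a' z.1 * ch z.2) 2 (volume.restrict O) := cmem _ (by fun_prop)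
  have m1 : MemLp (fun z : ℝ × ℝ => a z.1 * sh z.2) 2 (volume.restrict O) := cmem _ (by fun_prop)
  have h0' : ∀ᵐ z ∂volume.restrict (O \ W), v z - a z.1 * ch z.2 = 0 :=
    h0.mono fun z hz => sub_eq_zero.2 hz
  have e0 := ext O W Oo hW hK hKO _ (fun x => E0 x - a' x.1 * ch x.2) ((hE0.sub m0).integrable one_le_two) _
    (w0.sub (weak0 a a' h1 c1) (hv.integrable one_le_two) (hE0.integrable one_le_two)
      (mu.integrable one_le_two) (m0.integrable one_le_two)) h0'
  have e1 := ext O W Oo hW hK hKO _ (fun x => E1 x - a x.1 * sh x.2) ((hE1.sub m1).integrable one_le_two) _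
    (w1.sub (weak1 a c0) (hv.integrable one_le_two) (hE1.integrable one_le_two)
      (mu.integrable one_le_two) (m1.integrable one_le_two)) h0'
  obtain ⟨p1, p2, p3⟩ := ind_int hW.measurableSet (subset_closure.trans hKO)
    (g := fun x => v x - a x.1 * ch x.2) (hv.sub mu)
  obtain ⟨q1, q2, q3⟩ := ind_int isClosed_closure.measurableSet hKO
    (g := fun x => E0 x - a' x.1 * ch x.2) (hE0.sub m0)
  obtain ⟨r1, r2, r3⟩ := ind_int isClosed_closure.measurableSet hKO
    (g := fun x => E1 x - a x.1 * sh x.2) (hE1.sub m1)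
  set ψ := W.indicator (fun x => v x - a x.1 * ch x.2) with hψ
  set F0 := (closure W).indicator (fun x => E0 x - a' x.1 * ch x.2) with hF0
  set F1 := (closure W).indicator (fun x => E1 x - a x.1 * sh x.2) with hF1
  have sw : ∀ f : ℝ × ℝ → ℝ, ∫ z : ℝ × ℝ, f z.swap = ∫ z, f z := fun f =>
    integral_prod_swap (μ := volume) (ν := volume) f
  have swi : ∀ {f : ℝ × ℝ → ℝ}, Integrable f → Integrable fun z : ℝ × ℝ => f z.swap :=
    fun hf => Integrable.swap (μ := volume) (ν := volume) hf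
  obtain ⟨s1, s2, -, s4⟩ := twoD ψ F0 p1 q1 p2 q2 p3 q3 fun A B hA hB => by
    rw [← e0 (fun z => A z.1 * B z.2) (by fun_prop)]
    congr 1
    funext z
    congr 1
    have h := ((hA.differentiable (by simp) z.1).hasDerivAt.comp_hasFDerivAt z
      (hasFDerivAt_fst (𝕜 := ℝ))).mul ((hB.differentiable (by simp) z.2).hasDerivAt.comp_hasFDerivAt
        z (hasFDerivAt_snd (𝕜 := ℝ)))
    rw [show (fun z : ℝ × ℝ => A z.1 * B z.2) = (A ∘ Prod.fst) * (B ∘ Prod.snd) from rfl, h.fderiv]
    simp [mul_comm]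
  obtain ⟨-, -, t3, t4⟩ := twoD (fun z => ψ z.swap) (fun z => F1 z.swap) (swi p1) (swi r1)
    (swi p2) (swi r2) (fun z hz => p3 _ fun h => hz ⟨h.2, h.1⟩)
    (fun z hz => r3 _ fun h => hz ⟨h.2, h.1⟩) fun A B hA hB => by
    have h := e1 (fun z => A z.2 * B z.1) (by fun_prop)
    rw [← sw, ← sw fun z => A z.2 * B z.1 * F1 z] at h
    refine Eq.trans ?_ h
    congr 1
    funext z
    congr 1
    have h := ((hA.differentiable (by simp) z.1).hasDerivAt.comp_hasFDerivAt z.swap
      (hasFDerivAt_snd (𝕜 := ℝ))).mul ((hB.differentiable (by simp) z.2).hasDerivAt.comp_hasFDerivAt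
        z.swap (hasFDerivAt_fst (𝕜 := ℝ)))
    rw [show (fun z : ℝ × ℝ => A z.2 * B z.1) = (A ∘ Prod.snd) * (B ∘ Prod.fst) from rfl, h.fderiv]
    simp [mul_comm]
  have u0 := split hW hKO (fun z => a' z.1 * ch z.2) E0 (by fun_prop) hE0
    (s4 _ hW.measurableSet.compl fun z hz => indicator_of_notMem hz _)
  have u1 := split hW hKO (fun z => a z.1 * sh z.2) E1 (by fun_prop) hE1 (by
    have h := t4 (Prod.swap ⁻¹' Wᶜ) (hW.measurableSet.compl.preimage measurable_swap)
      fun z hz => indicator_of_notMem hz _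
    exact (Measure.measurePreserving_swap (μ := volume) (ν := volume)).quasiMeasurePreserving.ae h)
  have hd : deriv a' = fun x => -a x := funext fun x => (h2 x).deriv
  have v0 := s2 a' ch (contDiff_one_iff_deriv.2 ⟨fun x => (h2 x).differentiableAt,
    hd ▸ c0.neg⟩) c2
  have v1 := t3 a c0
  rw [← sw, ← sw fun z => (Ioi 0).indicator Real.cosh z.1 * a z.2 * ψ z.swap] at v1
  simp only [hd, neg_mul, integral_neg, neg_neg] at v0
  have j0 : Integrable fun z : ℝ × ℝ => a z.1 * ch z.2 * ψ z := intm Qc p1 p3 (by fun_prop)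
  have j1 : Integrable fun z : ℝ × ℝ => (Ioi 0).indicator Real.cosh z.2 * a z.1 * ψ z :=
    swi (chi_int (fun z => ψ z.swap) (swi p1) (fun z hz => p3 _ fun h => hz ⟨h.2, h.1⟩) a c0)
  have e : (fun z : ℝ × ℝ => ψ z ^ 2 + 2 * ((ch z.2 - (Ioi 0).indicator Real.cosh z.2) * a z.1 *
      ψ z)) = fun z => ψ z ^ 2 + 2 * (a z.1 * ch z.2 * ψ z -
        (Ioi 0).indicator Real.cosh z.2 * a z.1 * ψ z) := by
    funext z
    ring
  have j2 : Integrable fun z : ℝ × ℝ => a z.1 * ch z.2 * ψ z -
      (Ioi 0).indicator Real.cosh z.2 * a z.1 * ψ z := j0.sub j1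
  rw [e]
  refine ⟨p2.add (j2.const_mul 2), ?_⟩
  rw [integral_add p2 (j2.const_mul 2), integral_const_mul, integral_sub j0 j1, u0, u1]
  have v2 : ∫ z : ℝ × ℝ, a z.1 * sh z.2 * F1 z =
      -∫ z : ℝ × ℝ, (Ioi 0).indicator Real.cosh z.2 * a z.1 * ψ z := by
    refine Eq.trans ?_ v1
    congr 1
    funext z
    simp [sh, mul_comm]
  have v3 : 0 ≤ ∫ z, F1 z ^ 2 := integral_nonneg fun _ => sq_nonneg _
  linarith

end Pool.Agent.H.MP_5aaff8_an
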